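import Mathlib
import Pool.Agent.Helper705.Rad.RVerbal
import Pool.Agent.Helper705.Rad.RFin

set_option autoImplicit false

/-!
A relatively free group with a nontrivial radicable verbal subgroup (`MP_eeceb3_al`)

The idea of the proof: a soluble group `G` and words `v`, `s_m` (`m ≥ 1`) are constructed such that
`(s_m⁻¹ v s_m) ^ m = v` and `[v, v'] = 1` (with `v'` the word `v` in new variables) are laws of `G`,
whereas `v` is not a law of `G`. In each relatively free group of the variety generated by `G`
(of rank at least the number of variables of `v`) the verbal subgroup of `v` is then nontrivial,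
abelian, and each value of `v` has an `m`-th root that is again a value of `v`.
-/

namespace Pool.Agent.Results.MP_eeceb3_al.RadicableVerbal

open Pool.Agent.Helper705.Rad

/-- There are sets of words `U` (the laws of a variety) and `W` such that for each set `α` with at
least 17 elements the relatively free group `F = FreeGroup α ⧸ U(FreeGroup α)` of that variety
is soluble, and its verbal subgroup `W(F)` is nontrivial, abelian and radicable. -/
theorem result :
    ∃ (U W : Set (FreeGroup ℕ)) (d : ℕ), ∀ α : Type, Nonempty (Fin 17 ↪ α) →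
      derivedSeries (FreeGroup α ⧸ Verbal U (FreeGroup α)) d = ⊥ ∧
      Verbal W (FreeGroup α ⧸ Verbal U (FreeGroup α)) ≠ ⊥ ∧
      (∀ x ∈ Verbal W (FreeGroup α ⧸ Verbal U (FreeGroup α)),
        ∀ y ∈ Verbal W (FreeGroup α ⧸ Verbal U (FreeGroup α)), x * y = y * x) ∧
      (∀ h ∈ Verbal W (FreeGroup α ⧸ Verbal U (FreeGroup α)), ∀ n : ℕ, 1 ≤ n →
        ∃ x ∈ Verbal W (FreeGroup α ⧸ Verbal U (FreeGroup α)), x ^ n = h) := by
  obtain ⟨K, _, hr, hc, ⟨a, ha⟩, d, hd⟩ := exists_grp
  refine ⟨Laws K, WW, d, fun α hα => ?_⟩
  obtain ⟨ι⟩ := hα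
  refine ⟨rel_sol α d hd, rel_ne α a ha ι, ?_, ?_⟩
  · intro x hx y hy
    exact H_comm (rel_comm α hc) x y hx hy
  · intro h hh n hn
    exact H_root (rel_root α hr) (rel_comm α hc) h hh n hn

end Pool.Agent.Results.MP_eeceb3_al.RadicableVerbal
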